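import Pool.Agent.Lib.H47G5.Def
import Pool.Agent.Lib.H9TP.C5

/-!
# H47G5, file Cv: the covering predicate of form D with cycles of length at least five (MP_33911d)

`Cv E A`: `A` is covered by disjoint cycles of `E` of length at least five (`H8F.Cov5`), or by one single cycle of `E`.
-/

set_option autoImplicit false

namespace H47G5

open Finset H98M LD H85TF

variable {V : Type*} [Fintype V] [DecidableEq V]

/-- `F` is a single cycle (or empty): all degrees are `0` or `2`, and a set closed under `F` which contains a vertex of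
`F` contains all of them. -/
def OneF (F : Finset (Sym2 V)) : Prop :=
  (∀ v, dg F v = 0 ∨ dg F v = 2) ∧
    ∀ T : Finset V, (∀ a ∈ T, ∀ b, s(a, b) ∈ F → b ∈ T) → ∀ x ∈ T, dg F x ≠ 0 → ∀ y, dg F y ≠ 0 → y ∈ T

/-- `A` is inside the vertex set of one cycle of `E` (of any length). -/
def OneCyc (E : Finset (Sym2 V)) (A : Finset V) : Prop :=
  ∃ F ⊆ E, OneF F ∧ ∀ v ∈ A, dg F v = 2

/-- The covering predicate. -/
def Cv (E : Finset (Sym2 V)) (A : Finset V) : Prop := H8F.Cov5 E A ∨ OneCyc E A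

theorem oneCyc_sub {E : Finset (Sym2 V)} {A B : Finset V} (h : A ⊆ B) (hB : OneCyc E B) : OneCyc E A := by
  obtain ⟨F, h1, h2, h3⟩ := hB
  exact ⟨F, h1, h2, fun v hv => h3 v (h hv)⟩

theorem oneCyc_edges {E E' : Finset (Sym2 V)} {A : Finset V} (h : E ⊆ E') (hA : OneCyc E A) : OneCyc E' A := by
  obtain ⟨F, h1, h2, h3⟩ := hA
  exact ⟨F, h1.trans h, h2, h3⟩

theorem cv_dn (E : Finset (Sym2 V)) (A B : Finset V) (h : A ⊆ B) (hB : Cv E B) : Cv E A :=
  hB.imp (H8F.cov5_sub h) (oneCyc_sub h)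

theorem cv_mono (E E' : Finset (Sym2 V)) (A : Finset V) (h : E ⊆ E') (hA : Cv E A) : Cv E' A :=
  hA.imp (H8F.cov5_edges h) (oneCyc_edges h)

end H47G5
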