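import Pool.Agent.Lib.LD.Def

/-!
# H47G5, file Def: the predicate `UC` for an arbitrary covering predicate (MP_33911d, form D with longer cycles)
-/

set_option autoImplicit false

namespace H47G5

open Finset H98M LD

variable {V : Type*} [DecidableEq V]

/-- Some iterated reduction of the graph `(E, Y)` does not cover `W` in the sense of `Cv`. -/
inductive UC (Cv : Finset (Sym2 V) → Finset V → Prop) : Finset (Sym2 V) → Finset V → Finset V → Prop
  | base {E : Finset (Sym2 V)} {Y W : Finset V} : ¬ Cv E (W ∩ Y) → UC Cv E Y W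
  | step {E : Finset (Sym2 V)} {Y W : Finset V} {x y : V} {P Q : Finset V} :
      Sep E Y x y P Q → UC Cv (red E Y x y Q) (Y \ Q) W → UC Cv E Y W

variable {Cv : Finset (Sym2 V) → Finset V → Prop}

theorem UC.up (dn : ∀ (E : Finset (Sym2 V)) (A B : Finset V), A ⊆ B → Cv E B → Cv E A)
    {E : Finset (Sym2 V)} {Y W W' : Finset V} (h : UC Cv E Y W) (hW : W ⊆ W') : UC Cv E Y W' := by
  induction h with
  | base h => exact UC.base fun h1 => h (dn _ _ _ (inter_subset_inter_right hW) h1)
  | step hs _ ih => exact UC.step hs (ih hW)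

theorem UC.anti (mono : ∀ (E E' : Finset (Sym2 V)) (A : Finset V), E ⊆ E' → Cv E A → Cv E' A)
    {E' : Finset (Sym2 V)} {Y W : Finset V} (h : UC Cv E' Y W) :
    ∀ {E : Finset (Sym2 V)}, E ⊆ E' → UC Cv E Y W := by
  induction h with
  | base h => exact fun hE => UC.base fun h1 => h (mono _ _ _ hE h1)
  | step hs _ ih => exact fun hE => UC.step (hs.anti hE) (ih (red_mono hE))

theorem uc_noSep {E : Finset (Sym2 V)} {Y W : Finset V} (h : ∀ x y P Q, ¬ Sep E Y x y P Q)
    (hU : UC Cv E Y W) : ¬ Cv E (W ∩ Y) := by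
  cases hU with
  | base h1 => exact h1
  | step hs _ => exact absurd hs (h _ _ _ _)

end H47G5
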