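import Pool.Agent.Lib.H47G5.Side
import Pool.Agent.Lib.H47G5.L2
import Pool.Agent.Lib.H47G5.Cv
import Pool.Agent.Lib.H96LD.S6
import Pool.Agent.Lib.H30D.X7
import Pool.Agent.Lib.LD59.S8
import Pool.Agent.Lib.LD77.B
import Pool.Agent.Lib.H36R.FD4
import Pool.Agent.Lib.H98TF.FunD4

/-!
# H47G5, file Abs: form D with cycles of length at least five (MP_33911d), from the facts on cycles
-/

set_option autoImplicit false
set_option linter.unusedSectionVars false

open H53P SimpleDraw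

namespace H47G5

open Finset H98P H98Z H98M H63F H30F H63L H97W H85TF LD H36R H98TF

/-- The facts on cycles in graphs `(E, Y)`. -/
structure CycFacts (V : Type) [Fintype V] [DecidableEq V] : Prop where
  pair : ∀ (E : Finset (Sym2 V)) (Y : Finset V) (a b : V), TCY E Y → a ∈ Y → b ∈ Y → OneCyc E {a, b}
  base : ∀ (E : Finset (Sym2 V)) (Y A : Finset V), TCY E Y → (∀ x y P Q, ¬ Sep E Y x y P Q) → 5 ≤ Y.card →
    OneCyc E A → H8F.Cov5 E A
  red : ∀ (E : Finset (Sym2 V)) (Y : Finset V) (x y : V) (P Q A : Finset V), TCY E Y → Sep E Y x y P Q →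
    Cv (red E Y x y Q) A → Cv E A
  four : ∀ (E : Finset (Sym2 V)) (Y : Finset V), TCY E Y → Y.card ≤ 4 → OneCyc E Y
  cyc : ∀ (E : Finset (Sym2 V)) (Y : Finset V), TCY E Y → (∀ v ∈ Y, dg E v = 2) → OneCyc E Y

section

variable {V : Type} [Fintype V] [DecidableEq V]

/-- (S4). -/
theorem uc_two (cf : CycFacts V) {E : Finset (Sym2 V)} {Y W : Finset V} (h : TCY E Y)
    (h2 : (W ∩ Y).card ≤ 2) : ¬ UC Cv E Y W := by
  intro hU
  induction hU with
  | @base E Y W h1 =>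
    apply h1
    obtain ⟨T, hT1, hT2, hT3⟩ := exists_subsuperset_card_eq (n := 2) (s := W ∩ Y) (t := Y)
      inter_subset_right h2 (by have := h.three; omega)
    obtain ⟨a, b, hab, rfl⟩ := card_eq_two.1 hT3
    exact cv_dn _ _ _ hT1 (Or.inr (cf.pair E Y a b h (hT2 (by simp)) (hT2 (by simp))))
  | @step E Y W x y P Q hs _ ih =>
    refine ih (LD77.tcy_red h hs) (le_trans (card_le_card ?_) h2)
    exact inter_subset_inter_left sdiff_subset

/-- (S9). -/
theorem uc_cycle (cf : CycFacts V) {E : Finset (Sym2 V)} {Y W : Finset V} (h : TCY E Y)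
    (h2 : ∀ v ∈ Y, dg E v = 2) : ¬ UC Cv E Y W := by
  intro hU
  induction hU with
  | @base E Y W h1 => exact h1 (cv_dn _ _ _ inter_subset_right (Or.inr (cf.cyc E Y h h2)))
  | step hs _ ih => exact ih (LD77.tcy_red h hs) (LD77.dg_red h hs h2)

/-- All facts. -/
theorem facts5 (cf : CycFacts V) : FactsC V (Cv (V := V)) where
  dn := cv_dn
  s1 _ _ _ _ _ _ h hs := LD77.tcy_red h hs
  s4 _ _ _ h h2 := uc_two cf h h2
  s7u _ _ _ _ _ _ _ hT hu hs hW hU :=
    uc_side (Cv := Cv) (fun h hs => LD77.tcy_red h hs) (fun h hs hc => cf.red _ _ _ _ _ _ _ h hs hc)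
      (fun h h2 => uc_two cf h h2)
      (fun h hs h' hx hy hne => H96LD.side h hs h' hx hy hne) hU hT hs hu
      (disjoint_left.2 fun _ ha => (mem_sdiff.1 (hW ha)).2)
  s7x _ _ _ _ _ _ _ hT hu hs hW := H30D.x2_side' hT hu hs hW
  s8 _ _ h hs hd := LD59.exists_unc h hs hd
  s9 _ _ _ h h2 := uc_cycle cf h h2
  xadd _ _ _ _ _ _ _ _ hT hu hs hW hX hB := H30D.x2_add' hT hu hs hW hB hX

/-- (S10): the base case. -/
theorem base10 (cf : CycFacts V) (E : Finset (Sym2 V)) (Y M : Finset V) (hT : TCY E Y)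
    (hno : ∀ x y P Q, ¬ Sep E Y x y P Q) (hMY : M ⊆ Y) (hM : ¬ Disc M E) (hC : ¬ Cv E M) :
    AC (Ch fun W : Finset V => ¬ Cv E W ∧ W ⊂ M) := by
  have h5 : 5 ≤ Y.card := by
    by_contra h
    exact hC (cv_dn _ _ _ hMY (Or.inr (cf.four E Y hT (by omega))))
  have hiff : ∀ A, Cv E A ↔ H8F.Cov5 E A := fun A =>
    ⟨fun h => h.elim id (cf.base E Y A hT hno h5), Or.inl⟩
  have hne : M.Nonempty := by
    rw [nonempty_iff_ne_empty]
    rintro rfl
    exact hC (Or.inl (H8F.cov5_empty E))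
  obtain ⟨w, hw⟩ := hne
  have h1 := H96TF.ac_nf (G := E) (Pi := H8F.Cov5 E) (fun A B h hB => H8F.cov5_sub h hB)
    (fun A b d U hb hd hbU hdU hU hin => H9TP.exch5_set hT.loop hb hd hbU hdU hU hin) M.card M ∅ rfl hM
    ⟨w, hw, by
      have h2 := cf.base E Y _ hT hno h5 (cf.pair E Y w w hT (hMY hw) (hMY hw))
      rwa [pair_eq_singleton] at h2⟩ (by rw [union_empty]; exact fun h => hC (Or.inl h))
  refine ac_congr (fun c => ?_) h1
  have e : (fun W' : Finset V => W' ⊆ M ∧ W' ≠ M ∧ ¬ H8F.Cov5 E (W' ∪ ∅)) =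
      fun W : Finset V => ¬ Cv E W ∧ W ⊂ M := by
    funext W
    rw [union_empty, hiff]
    refine propext ⟨fun h => ⟨h.2.2, Finset.ssubset_iff_subset_ne.2 ⟨h.1, h.2.1⟩⟩, fun h => ⟨h.2.1, h.2.ne, h.1⟩⟩
  rw [e]

/-- (L2). -/
theorem L2_5 (cf : CycFacts V) (E : Finset (Sym2 V)) (_hE : E ⊆ LW univ)
    (hT : TCY E univ) (M : Finset V) (hM : ¬ Disc M E) (hU : UC Cv E univ M) :
    AC (Ch fun W : Finset V => (UC Cv E univ W ∨ X2 E univ W) ∧ W ⊂ M) :=
  l2uc (facts5 cf) (fun E Y M hT hno hMY hM hC => base10 cf E Y M hT hno hMY hM hC) univ.card E univ M rfl hT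
    (subset_univ M) hM hU

end

section

variable {V : Type*} [Fintype V] [DecidableEq V]

/-- One cycle through all vertices. -/
theorem ham_of_one {G : Finset (Sym2 V)} (h : OneCyc G univ) : Ham G := by
  obtain ⟨F, hF, ⟨-, h1⟩, h2⟩ := h
  refine ⟨F, hF, ?_, fun v => h2 v (mem_univ v)⟩
  rintro ⟨C, D, ⟨c, hc⟩, ⟨d, hd⟩, hCD, hun, hno⟩
  have h3 := h1 C (fun a ha b hab => by
    by_contra hb
    have hbD : b ∈ D := by
      have : b ∈ C ∪ D := by rw [hun]; exact mem_univ b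
      exact (mem_union.1 this).resolve_left hb
    exact hno a ha b hbD hab) c hc (by rw [h2 c (mem_univ c)]; omega) d (by rw [h2 d (mem_univ d)]; omega)
  exact disjoint_left.1 hCD h3 hd

/-- THE FUNCTOR STEP with cycles of length at least five. -/
theorem formD5 {cross : Sym2 V → Sym2 V → Prop} (hsymm : ∀ e f, cross e f → cross f e)
    (hHD : ∀ W, HD cross W) (h3 : 3 ≤ Fintype.card V)
    (L2 : ∀ E : Finset (Sym2 V), E ⊆ LW univ → TCY E univ → ∀ M : Finset V, ¬ Disc M E →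
      UC Cv E univ M → AC (Ch fun W : Finset V => (UC Cv E univ W ∨ X2 E univ W) ∧ W ⊂ M))
    (L1 : ∀ E : Finset (Sym2 V), E ⊆ LW univ → TCY E univ → (∃ x y P Q, Sep E univ x y P Q) →
      ¬ (∀ v, dg E v = 2) → AC (Ch fun W : Finset V => X2 E univ W)) :
    ∃ G : Finset (Sym2 V), G ⊆ LW univ ∧ Plane cross G ∧ TC G ∧ 2 * Fintype.card V ≤ G.card + 3 ∧
      (Ham G ∨ (NoCut2 G ∧ H8F.Cov5 G univ)) := by
  have hV : ∃ x y : V, x ≠ y := by
    obtain ⟨x, y, h⟩ := Fintype.exists_pair_of_one_lt_card (α := V) (by omega)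
    exact ⟨x, y, h⟩
  obtain ⟨G, hGL, hGp, ⟨hT, hN⟩, hcard⟩ := exactX hsymm hHD hV
    (fun G W => Disc W G ∧ (TC G → UC Cv G univ W ∨ X2 G univ W))
    (fun G => TC G ∧ (Ham G ∨ (NoCut2 G ∧ H8F.Cov5 G univ)))
    (fun G G' hGG _ W hW => ⟨H85TF.disc_anti hGG hW.1, fun hT =>
      (hW.2 (tc_mono hGG hT)).imp (fun h => h.anti cv_mono hGG) (fun h => h.anti hGG)⟩)
    (fun G W _ h => h.1)
    (fun G G' hGG _ h => ⟨tc_mono hGG h.1, h.2.imp (ham_mono hGG)
      (fun h => ⟨noCut2_mono hGG h.1, H8F.cov5_edges hGG h.2⟩)⟩)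
    (fun G hGL hno => by
      by_cases hT : TC G
      · have hY := tcy_of_tc h3 hGL hT
        by_cases hU : UC Cv G univ univ
        · refine ac_congr (fun t => ?_) (H30D.remove_univ
            (P := fun W => UC Cv G univ W ∨ X2 G univ W) (G := G) (fun M hM hMc => ?_) (Or.inl hU))
          · constructor
            · exact ch_mono fun W hW => ⟨hW.2, fun _ => hW.1⟩
            · exact ch_mono fun W hW => ⟨hW.2 hT, hW.1⟩
          · exact L2 G hGL hY M hMc (hM.resolve_right fun h => hMc (H98TF.disc_of_x2 h))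
        · have hU' : ∀ W, ¬ UC Cv G univ W := fun W h => hU (h.up cv_dn (subset_univ W))
          have hcov : Cv G univ := by
            by_contra h
            refine hU (UC.base ?_)
            rw [univ_inter]
            exact h
          have hno' : ¬ (Ham G ∨ (NoCut2 G ∧ H8F.Cov5 G univ)) := fun h => hno ⟨hT, h⟩
          rw [not_or, not_and] at hno'
          have hcov5 : H8F.Cov5 G univ := hcov.resolve_right fun h => hno'.1 (ham_of_one h)
          have hsep : ∃ x y P Q, Sep G univ x y P Q := by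
            by_contra hcon
            push Not at hcon
            exact hno'.2 (noCut2_of_noSep hcon) hcov5
          have hdeg : ¬ ∀ v, dg G v = 2 := fun h => hno'.1 ⟨G, Subset.rfl, hT.1, h⟩
          refine ac_congr (fun t => ?_) (L1 G hGL hY hsep hdeg)
          constructor
          · exact ch_mono fun W hW => ⟨H98TF.disc_of_x2 hW, fun _ => Or.inr hW⟩
          · exact ch_mono fun W hW => (hW.2 hT).resolve_left (hU' W)
      · refine ac_congr (fun t => ?_) (H30D.ac_disc G (by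
          by_contra hcon
          rw [not_or, not_exists] at hcon
          exact hT hcon))
        constructor
        · exact ch_mono fun W hW => ⟨hW, fun h => absurd h hT⟩
        · exact ch_mono fun W hW => hW.1)
  exact ⟨G, hGL, hGp, hT, hcard, hN⟩

end

theorem five_le_gr {n : ℕ} {F : Finset (Sym2 (Fin n))} (h3 : ∀ x y z, s(x, y) ∈ F → s(y, z) ∈ F → s(x, z) ∉ F)
    (h4 : ∀ x y z w, x ≠ z → y ≠ w → s(x, y) ∈ F → s(y, z) ∈ F → s(z, w) ∈ F → s(w, x) ∉ F) {v : Fin n}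
    (c : (gr F).Walk v v) (hc : c.IsCycle) : 5 ≤ c.length := by
  have hm : ∀ {x y : Fin n}, (gr F).Adj x y → s(x, y) ∈ F := by
    intro x y h
    rw [SimpleGraph.fromEdgeSet_adj] at h
    exact_mod_cast h.1
  exact five_le (fun x y z a b d => h3 x y z (hm a) (hm b) (hm d))
    (fun x y z w h1 h2 a b c d => h4 x y z w h1 h2 (hm a) (hm b) (hm c) (hm d)) c hc

/-- FORM D5 for simple drawings, from the abstract form. -/
theorem draw_D5 {n : ℕ} (hn : 3 ≤ n) (D : SimpleDrawing n) {G : Finset (Sym2 (Fin n))}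
    (hGL : G ⊆ LW univ) (hGP : Plane (crossT (H53P.table D)) G) (hT : TC G)
    (hm : 2 * Fintype.card (Fin n) ≤ G.card + 3)
    (h : Ham G ∨ (NoCut2 G ∧ H8F.Cov5 G univ)) :
    ∃ G H F : SimpleGraph (Fin n), D.Plane G ∧ F ≤ H ∧ H ≤ G ∧ H.Connected ∧
      (∀ v, (H.induce {w | w ≠ v}).Connected) ∧ H.edgeSet.ncard = 2 * n - 3 ∧
      (∀ v, (F.neighborSet v).ncard = 2) ∧
      ((∃ (v : Fin n) (c : F.Walk v v), c.IsHamiltonianCycle) ∨
        (∀ (v : Fin n) (c : F.Walk v v), c.IsCycle → 5 ≤ c.length) ∧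
        ∀ u v, (G.induce {w | w ≠ u ∧ w ≠ v}).Connected) := by
  have hd := not_diag_of_LW hGL
  rcases h with ⟨F, hF, hc, h2⟩ | ⟨hN, F, hF, -, ht, hq, h2⟩
  · have hdF : ∀ e ∈ F, ¬ e.IsDiag := fun e he => hd e (hF he)
    obtain ⟨H, g1, g2, g3, g4, g5, g6⟩ := layer2 hn D hGL hGP hT hF (fun v => (h2 v).le) hm
    exact ⟨gr G, H, gr F, g1, g6, g2, g3, g4, g5, fun v => (degree_gr hdF v).trans (h2 v),
      Or.inl ⟨⟨0, by omega⟩, ham_gr hn hdF hc h2 _⟩⟩
  · have hdF : ∀ e ∈ F, ¬ e.IsDiag := fun e he => hd e (hF he)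
    obtain ⟨H, g1, g2, g3, g4, g5, g6⟩ := layer2 hn D hGL hGP hT hF
      (fun v => (h2 v (mem_univ v)).le) hm
    exact ⟨gr G, H, gr F, g1, g6, g2, g3, g4, g5,
      fun v => (degree_gr hdF v).trans (h2 v (mem_univ v)),
      Or.inr ⟨fun v c hcyc => five_le_gr ht hq c hcyc, conn3 hn hT hN⟩⟩

/-- The main theorem of form D5, from the facts on cycles. -/
theorem main5 (cf : ∀ n : ℕ, CycFacts (Fin n)) : ∀ (n : ℕ), 3 ≤ n → ∀ D : SimpleDrawing n,
    ∃ G H F : SimpleGraph (Fin n), D.Plane G ∧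
    F ≤ H ∧ H ≤ G ∧ H.Connected ∧ (∀ v : Fin n, (H.induce {w | w ≠ v}).Connected) ∧
    H.edgeSet.ncard = 2 * n - 3 ∧ (∀ v : Fin n, (F.neighborSet v).ncard = 2) ∧
    ((∃ (v : Fin n) (c : F.Walk v v), c.IsHamiltonianCycle) ∨
      (∀ (v : Fin n) (c : F.Walk v v), c.IsCycle → 5 ≤ c.length) ∧
      ∀ u v : Fin n, (G.induce {w | w ≠ u ∧ w ≠ v}).Connected) := by
  intro n hn D
  obtain ⟨G, hGL, hGP, hT, hm, h⟩ := formD5 (H53P.crossT_symm (H53P.table D))
    (H98W.hd_table (H53P.table D)) (by rw [Fintype.card_fin]; exact hn) (L2_5 (cf n)) H36R.L1_4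
  exact draw_D5 hn D hGL hGP hT hm h

end H47G5
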