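import Pool.Agent.Lib.H47G5.Abs
import Pool.Agent.Lib.H24A.B
import Pool.Agent.Lib.H77D5.C2
import Pool.Agent.Lib.H33DC.D
import Pool.Agent.Lib.H57G5.E

/-!
# H47G5, file Inst: the facts on cycles, up to the base case
-/

set_option autoImplicit false

namespace H47G5

open Finset H98M H85TF LD SimpleDraw

/-- The facts, from the base case. -/
theorem cycFacts_of (V : Type) [Fintype V] [DecidableEq V]
    (base : ∀ (E : Finset (Sym2 V)) (Y A : Finset V), TCY E Y → (∀ x y P Q, ¬ Sep E Y x y P Q) → 5 ≤ Y.card →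
      OneCyc E A → H8F.Cov5 E A) : CycFacts V where
  pair _ _ _ _ hT ha hb := H24A.oneCyc_two hT ha hb
  base := base
  red _ _ _ _ _ _ _ hT hs h := H77D5.cv_red hT hs h
  four _ _ hT h4 := H33DC.small_ham hT h4
  cyc _ _ hT h2 := H57G5.oneCyc_of_deg2 hT h2

end H47G5
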