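import Pool.Agent.Lib.H47G5.Inst
import Pool.Agent.Lib.H63B.B

/-!
# H47G5, file Main: form D with all cycles of the 2-factor of length at least five (MP_33911d), complete
-/

set_option autoImplicit false

namespace H47G5

open Finset H98M H85TF LD SimpleDraw

/-- All facts on cycles. -/
theorem cycFacts (V : Type) [Fintype V] [DecidableEq V] : CycFacts V :=
  cycFacts_of V fun _ _ _ hT hno h5 h => H63B.oneCyc_cov5 hT hno h5 h

/-- Form D with cycles of length at least five, for all simple drawings of `K_n`, `n ≥ 3`. -/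
theorem main : ∀ (n : ℕ), 3 ≤ n → ∀ D : SimpleDrawing n, ∃ G H F : SimpleGraph (Fin n), D.Plane G ∧
    F ≤ H ∧ H ≤ G ∧ H.Connected ∧ (∀ v : Fin n, (H.induce {w | w ≠ v}).Connected) ∧
    H.edgeSet.ncard = 2 * n - 3 ∧ (∀ v : Fin n, (F.neighborSet v).ncard = 2) ∧
    ((∃ (v : Fin n) (c : F.Walk v v), c.IsHamiltonianCycle) ∨
      (∀ (v : Fin n) (c : F.Walk v v), c.IsCycle → 5 ≤ c.length) ∧
      ∀ u v : Fin n, (G.induce {w | w ≠ u ∧ w ≠ v}).Connected) :=
  main5 fun n => cycFacts (Fin n)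

end H47G5
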